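import Pool.Agent.Helper64.FL.StH

set_option autoImplicit false

namespace Pool.Agent.Helper64.FL

open Pool.Agent.Helper64.CT Pool.Agent.Helper64.DT
open Pool.Agent.Helper64.HG (Ovl Model Circ IC HellyCircle ChordModel)

theorem st_DI2 (hD1F : ST_D1F) (hSTB : ST_STB) (hW1 : ST_W1) (hCNB : ST_CNB) : ST_DI2 := by
  intro V G x k y u0 Lu um hR hD hfg
  obtain ⟨f, hf, g, hg, hfg, hfU, hgU⟩ := hfg
  obtain ⟨c1, c2, -, -, c5, -, -⟩ := hCNB V G
  obtain ⟨d1, -, -, d4, d5, -⟩ := hD1F V G x k y u0 Lu um hD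
  have far : ∀ a b, Comp G x a b → b ≠ x ∧ ¬ G.Adj x b := by
    intro a b h
    obtain ⟨-, h2, -⟩ := h
    exact h2
  have hk5 := hD.moc.k5
  -- the path
  have hne : u0 ≠ um ∧ IPt G (u0 :: (Lu ++ [um])) := by
    rcases hD.p.pth with ⟨-, h2⟩ | h
    · rw [h2] at hf
      simp at hf
    · exact h
  have hM : ∀ v ∈ u0 :: (Lu ++ [um]), Comp G x (y 0) v := by
    intro v hv
    simp only [List.mem_cons, List.mem_append, List.not_mem_nil, or_false] at hv
    rcases hv with h | h | h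
    · rw [h]; exact hD.p.lK
    · exact hD.p.LK v h
    · rw [h]; exact hD.p.rK
  have full : ∀ u ∈ Lu, u ∈ UU G x k y → ∀ j, 1 ≤ j → j < k → ∀ n ∈ Att G x (y j), G.Adj u n := by
    intro u hu hU
    rcases d1 u hu with h | h
    · exact h.2
    · exact absurd hU h.1
  obtain ⟨p, hp, hup⟩ := hD.mm.1
  -- the hub at the other end
  have hq : ∃ q ∈ Att G x (y (k - 1)), Pure G p q u0 := by
    by_cases h0 : u0 ∈ UU G x k y
    · obtain ⟨q, hq, hqn⟩ := hD.m0.2
      refine ⟨q, hq, Or.inl ⟨(hD.u1 u0 h0 p hp).symm, fun h => hqn h.symm⟩⟩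
    · obtain ⟨q, hq, hqa⟩ := hD.m0.1
      exact ⟨q, hq, Or.inr ⟨fun h => (d5 h0).2 hne.1 p hp h.symm, hqa.symm⟩⟩
  obtain ⟨q, hq, hpu0⟩ := hq
  have humq : ¬ G.Adj um q := d4 hne.1 q hq
  have hpq : p ≠ q := fun h => humq (h ▸ hup)
  have hxp : G.Adj x p := hp.1
  have hxq : G.Adj x q := hq.1
  have fx := far _ _ (hM f (by simp [hf]))
  have fp := full f hf hfU 1 le_rfl (by omega) p hp
  have fq := full f hf hfU (k - 1) (by omega) (by omega) q hq
  have gp := full g hg hgU 1 le_rfl (by omega) p hp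
  have gq := full g hg hgU (k - 1) (by omega) (by omega) q hq
  have hnpq : ¬ G.Adj p q := (hSTB V G hR.df x f p q fx.1 hpq hxp hxq fp fq).1 fx.2
  have hnfg : ¬ G.Adj f g := (hSTB V G hR.df f g p q hfg.symm hpq fp fq gp gq).2 hnpq
  -- the removed vertex
  obtain ⟨z, hz, -⟩ := (hD.moc.cf 1).2.1
  have zx := far _ _ hz
  have hzM : ∀ v ∈ u0 :: (Lu ++ [um]), v ≠ z := by
    intro v hv h
    refine hD.moc.ncm 0 1 (by omega) (by omega) ?_
    have h1 := (c5 _ _ _).1 (hM v hv)
    have h2 := (c1 _ _ _ ((c5 _ _ _).1 hz)).2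
    rw [h] at h1
    exact (c5 _ _ _).2 (c2 _ _ _ _ h1 h2)
  refine hW1 V G {v | v ≠ z} p q x [] x (u0 :: (Lu ++ [um])) hpq hnpq ?_ hne.2 ?_ ?_ ?_ ?_ ?_ hzM
    ?_ ?_ ?_ (hR.naj z)
  · exact {
      hd := hxp.symm
      kd := hxq.symm
      pth := Or.inl ⟨rfl, rfl⟩
      dd := fun h => absurd rfl h
      Lh := fun u hu => by simp at hu
      nh := by
        intro u hu
        have hu' : u = x := by
          simp only [List.not_mem_nil, false_or, or_self] at hu
          exact hu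
        rw [hu']
        exact ⟨hxp.ne, hxq.ne⟩ }
  · intro u hu
    have hu' : u = x := by
      simp only [List.not_mem_nil, false_or, or_self] at hu
      exact hu
    rw [hu']
    refine ⟨fun h => zx.1 h.symm, fun v hv => ?_⟩
    have := far _ _ (hM v hv)
    exact ⟨fun h => this.1 h.symm, this.2⟩
  · intro h
    exact (far _ _ (hM p h)).2 hxp
  · intro h
    exact (far _ _ (hM q h)).2 hxq
  · intro h
    exact zx.2 (h ▸ hxp)
  · intro h
    exact zx.2 (h ▸ hxq)
  · intro u hu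
    simp only [List.head?_cons, Option.mem_def, Option.some.injEq] at hu
    rw [← hu]
    exact hpu0
  · intro u hu
    have h1 : (u0 :: (Lu ++ [um])).getLast? = some um := by
      rw [← List.cons_append, List.getLast?_append]
      simp
    rw [h1] at hu
    simp only [Option.mem_def, Option.some.injEq] at hu
    rw [← hu]
    exact Or.inl ⟨hup.symm, fun h => humq h.symm⟩
  · exact ⟨f, by simp [hf], g, by simp [hg], hfg, hnfg, fp.symm, fq.symm, gp.symm, gq.symm⟩

end Pool.Agent.Helper64.FL
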