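import Pool.Agent.Helper64.FL.StH

set_option autoImplicit false

namespace Pool.Agent.Helper64.FL

open Pool.Agent.Helper64.CT Pool.Agent.Helper64.DT
open Pool.Agent.Helper64.HG (Ovl Model Circ IC HellyCircle ChordModel)

theorem st_LPN (hLPA : ST_LPA) (hLDS : ST_LDS) : ST_LPN := by
  intro V G x h k E1 n P a t E2 α β hL hpar
  obtain ⟨h1, h2, h3⟩ := hLPA V G x h k E1 n P a t E2 α β hL
  have hpar' : (α = β ∧ Odd (rungs G h k (E1 ++ (arcL n P a t ++ E2))) ∧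
      3 ≤ rungs G h k (E1 ++ (arcL n P a t ++ E2))) ∨
      (α ≠ β ∧ Even (rungs G h k (E1 ++ (arcL n P a t ++ E2))) ∧
      4 ≤ rungs G h k (E1 ++ (arcL n P a t ++ E2))) := by
    rw [h2]
    rcases hpar with ⟨e1, e2, e3⟩ | ⟨e1, e2, e3⟩
    · exact Or.inl ⟨e1, e2.add_one, by omega⟩
    · exact Or.inr ⟨e1, e2.add_one, by omega⟩
  have key : ∀ S, ladV h k E1 n P a t E2 ⊆ S → ¬ NAJ G S := by
    intro S hS
    refine hLDS V G S h k _ α β h1 ?_ ?_ ?_ hpar'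
    · exact hS ((h3 h).2 (Or.inl rfl))
    · exact hS ((h3 k).2 (Or.inr (Or.inl rfl)))
    · exact fun u hu => hS ((h3 u).2 (Or.inr (Or.inr hu)))
  refine ⟨key, fun hR => ?_⟩
  have hall : ∀ v, v ∈ ladV h k E1 n P a t E2 := by
    intro v
    by_contra hv
    refine key {w | w ≠ v} ?_ (hR.naj v)
    intro w hw hc
    exact hv (hc ▸ hw)
  refine ⟨⟨h, k, _, α, β, h1, fun v => (h3 v).1 (hall v), ?_⟩, hall⟩
  rcases hpar' with hp | hp
  · exact Or.inl hp
  · exact Or.inr (Or.inl hp)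

end Pool.Agent.Helper64.FL
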