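import Pool.Agent.Helper64.FL.StC

/-! QCA: the two arms are connected outside the neighbourhood of `z`. -/

set_option autoImplicit false

namespace Pool.Agent.Helper64.FL

open Pool.Agent.Helper64.CT Pool.Agent.Helper64.DT
open Pool.Agent.Helper64.HG (Ovl Model Circ IC HellyCircle ChordModel)

theorem qca_pth {V : Type} {G : SimpleGraph V} {a w : V} {l : List V} (h : Pth G a l w)
    (hne : a ≠ w) : IPt G (a :: (l ++ [w])) := by
  rcases h with ⟨h, -⟩ | ⟨-, h⟩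
  · exact absurd h hne
  · exact h

theorem qca_tri {V : Type} {G : SimpleGraph V} {a w : V} {l : List V} (h : Pth G a l w)
    (he : a = w) : l = [] := by
  rcases h with ⟨-, h⟩ | ⟨h, -⟩
  · exact h
  · exact absurd he h

theorem qca_ipt_tail {V : Type} {G : SimpleGraph V} {w : V} : ∀ {l : List V},
    IPt G (l ++ [w]) → w ∉ l := by
  intro l
  induction l with
  | nil => intro _ h; exact absurd h (by simp)
  | cons c l ih =>
    intro h hm
    obtain ⟨h1, -, -, h4⟩ := h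
    rcases List.mem_cons.1 hm with e | e
    · exact h1 w (by simp) e.symm
    · exact ih h4 e

theorem qca_ends {V : Type} {G : SimpleGraph V} {a w : V} {l : List V} (h : Pth G a l w) :
    a ∉ l ∧ w ∉ l := by
  rcases h with ⟨-, h⟩ | ⟨-, h⟩
  · subst h; simp
  · obtain ⟨h1, -, -, h4⟩ := h
    exact ⟨fun hm => h1 a (by simp [hm]) rfl, qca_ipt_tail h4⟩

theorem qca_far {V : Type} {G : SimpleGraph V} {x u : V} (h : u ∈ Far G x) :
    x ≠ u ∧ ¬ G.Adj x u := ⟨fun e => h.1 e.symm, h.2⟩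

theorem qca_far' {V : Type} {G : SimpleGraph V} {x u : V} (h : u ∈ Far G x) :
    u ≠ x ∧ ¬ G.Adj u x := ⟨h.1, fun e => h.2 e.symm⟩

theorem qca_sym {V : Type} {G : SimpleGraph V} {x u : V} (h : x ≠ u ∧ ¬ G.Adj x u) :
    u ≠ x ∧ ¬ G.Adj u x := ⟨h.1.symm, fun e => h.2 e.symm⟩

/-- facts on one arm cut at `f` -/
structure QcaArm {V : Type} (G : SimpleGraph V) (x m q : V) (a : V) (l1 : List V) (f : V)
    (l2 : List V) (a' : V) (P : Set V) : Prop where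
  ne : ∀ u ∈ P, x ≠ u ∧ m ≠ u ∧ q ≠ u
  k1 : a ≠ f → a ≠ a'
  k2 : f ≠ a' → a ≠ a'
  aa : a ≠ f → f ≠ a' → a ≠ a' ∧ ¬ G.Adj a a'
  xf : a ≠ f → x ≠ f ∧ ¬ G.Adj x f
  xa : a ≠ a' → x ≠ a' ∧ ¬ G.Adj x a'
  ma : a ≠ a' → m ≠ a ∧ ¬ G.Adj m a
  mf : f ≠ a' → m ≠ f ∧ ¬ G.Adj m f
  aq : a ≠ f → a ≠ q ∧ ¬ G.Adj a q
  n1 : a ∉ l1 ∧ f ∉ l1 ∧ a' ∉ l1
  n2 : a ∉ l2 ∧ f ∉ l2 ∧ a' ∉ l2
  x1 : ∀ u ∈ l1, ¬ G.Adj x u
  x2 : ∀ u ∈ l2, ¬ G.Adj x u
  m1 : ∀ u ∈ l1, ¬ G.Adj m u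
  m2 : ∀ u ∈ l2, ¬ G.Adj m u
  q1 : ∀ u ∈ l1, ¬ G.Adj q u
  w1 : a' ≠ f → ∀ u ∈ l1, ¬ G.Adj a' u
  w2 : a ≠ f → ∀ u ∈ l2, ¬ G.Adj a u
  t1 : a = f → l1 = []
  t2 : f = a' → l2 = []
  r1 : a ≠ f → IPt G (a :: (l1 ++ [f]))
  r2 : f ≠ a' → IPt G (f :: (l2 ++ [a']))

theorem qca_arm {V : Type} {G : SimpleGraph V} {x m q a : V} {la : List V} {a' : V}
    {l1 : List V} {f : V} {l2 : List V} (hA : Arm G x m a la a')
    (hq : q ∉ PV a la a')
    (hO : OnP G (PV a la a') (fun v => G.Adj v q) a l1 f l2 a') :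
    QcaArm G x m q a l1 f l2 a' (PV a la a') := by
  have aK := hO.aK
  have fK := hO.fK
  have a'K := hO.wK
  have l1K := hO.l1K
  have l2K := hO.l2K
  obtain ⟨al1, fl1⟩ := qca_ends hO.p1
  obtain ⟨fl2, a'l2⟩ := qca_ends hO.p2
  have a'l1 : a' ∉ l1 := by
    intro h
    by_cases h2 : f = a'
    · exact fl1 (h2 ▸ h)
    · exact (hO.l1w h2 a' h).1 rfl
  have al2 : a ∉ l2 := by
    intro h
    by_cases h2 : a = f
    · exact fl2 (h2 ▸ h)
    · exact (hO.al2 h2 a h).1 rfl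
  have qP : ∀ u ∈ PV a la a', q ≠ u := fun u hu e => hq (e ▸ hu)
  refine ⟨?_, ?_, ?_, hO.aw, ?_, ?_, ?_, ?_, ?_, ⟨al1, fl1, a'l1⟩, ⟨al2, fl2, a'l2⟩, ?_, ?_, ?_,
    ?_, ?_, ?_, ?_, qca_tri hO.p1, qca_tri hO.p2, qca_pth hO.p1, qca_pth hO.p2⟩
  · exact fun u hu => ⟨fun e => (hA.ny u hu).1 e.symm, fun e => (hA.nm u hu).1 e.symm, qP u hu⟩
  · intro h
    by_cases h2 : f = a'
    · exact h2 ▸ h
    · exact (hO.aw h h2).1
  · intro h
    by_cases h2 : a = f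
    · exact h2 ▸ h
    · exact (hO.aw h2 h).1
  · exact fun h => ⟨fun e => (hA.ny f fK).1 e.symm, fun h' => h ((hA.ny f fK).2 h').symm⟩
  · exact fun h => ⟨fun e => (hA.ny a' a'K).1 e.symm, fun h' => h ((hA.ny a' a'K).2 h').symm⟩
  · exact fun h => ⟨fun e => (hA.nm a aK).1 e.symm, fun h' => h ((hA.nm a aK).2 h')⟩
  · exact fun h => ⟨fun e => (hA.nm f fK).1 e.symm, fun h' => h ((hA.nm f fK).2 h')⟩
  · exact fun h => ⟨fun e => qP a aK e.symm, fun h' => hO.ft h h'⟩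
  · exact fun u hu h => al1 ((hA.ny u (l1K u hu)).2 h ▸ hu)
  · exact fun u hu h => al2 ((hA.ny u (l2K u hu)).2 h ▸ hu)
  · exact fun u hu h => a'l1 ((hA.nm u (l1K u hu)).2 h ▸ hu)
  · exact fun u hu h => a'l2 ((hA.nm u (l2K u hu)).2 h ▸ hu)
  · exact fun u hu h => hO.fl u hu h.symm
  · exact fun h u hu h' => (hO.l1w (fun e => h e.symm) u hu).2 h'.symm
  · exact fun h u hu => (hO.al2 h u hu).2

theorem st_QCA : ST_QCA := by
  intro V G S hN x y z a l1 f l2 a' b l3 g l4 b' m m' la lb xy xz yz hT q M q' hM hMF hMn hqq hO hO'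
  have aK := hO.aK
  have fK := hO.fK
  have a'K := hO.wK
  have l1K := hO.l1K
  have l2K := hO.l2K
  have bK := hO'.aK
  have gK := hO'.fK
  have b'K := hO'.wK
  have l3K := hO'.l1K
  have l4K := hO'.l2K
  have e105 : G.Adj q f := hO.ff.symm
  have e118 : G.Adj q' g := hO'.ff.symm
  have hq := hMF q (Or.inl rfl)
  have hq' := hMF q' (Or.inr (Or.inr rfl))
  have hMM := fun u (hu : u ∈ M) => hMF u (Or.inr (Or.inl hu))
  have A := qca_arm hT.A hq.2.1 hO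
  have B := qca_arm hT.B hq'.2.2 hO'
  obtain ⟨qM, q'M⟩ := qca_ends hM
  -- cross facts for the arms
  have AB := hT.AB
  have xB : ∀ u ∈ PV b lb b', x ≠ u ∧ ¬ G.Adj x u := fun u hu => qca_far (hT.Bx hu)
  have zB : ∀ u ∈ PV b lb b', z ≠ u ∧ ¬ G.Adj z u := fun u hu => qca_far (hT.Bz hu)
  have yA : ∀ u ∈ PV a la a', y ≠ u ∧ ¬ G.Adj y u := fun u hu => qca_far (hT.Ay hu)
  have zA : ∀ u ∈ PV a la a', z ≠ u ∧ ¬ G.Adj z u := fun u hu => qca_far (hT.Az hu)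
  have qB : ∀ u ∈ PV b lb b', q ≠ u := fun u hu e => hq.2.2 (e ▸ hu)
  have q'A : ∀ u ∈ PV a la a', q' ≠ u := fun u hu e => hq'.2.1 (e ▸ hu)
  have q'1 : ∀ u ∈ l1, ¬ G.Adj q' u := by
    intro u hu
    by_cases h : q = q'
    · rw [← h]; exact A.q1 u hu
    · exact (hqq h).2 u (l1K u hu)
  have q3 : ∀ u ∈ l3, ¬ G.Adj q u := by
    intro u hu
    by_cases h : q = q'
    · rw [h]; exact B.q1 u hu
    · exact (hqq h).1 u (l3K u hu)
  have cq : q ≠ q' → ∀ u ∈ PV b lb b', q ≠ u ∧ ¬ G.Adj q u :=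
    fun h u hu => ⟨qB u hu, (hqq h).1 u hu⟩
  have cq' : q ≠ q' → ∀ u ∈ PV a la a', q' ≠ u ∧ ¬ G.Adj q' u :=
    fun h u hu => ⟨q'A u hu, (hqq h).2 u hu⟩
  -- edges
  have e32 : G.Adj m z := hT.zm.symm
  have e42 : G.Adj m' z := hT.zm'.symm
  have e40 : G.Adj a x := hT.A.yb.symm
  have e71 : G.Adj b y := hT.B.yb.symm
  have e36 : G.Adj m a' := hT.A.mb
  have e39 : G.Adj m' b' := hT.B.mb
  -- nonadjacent pairs
  have d30 := qca_far' hT.mF.1
  have d31 := qca_far' hT.mF.2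
  have d30' := qca_far' hT.mF'.1
  have d31' := qca_far' hT.mF'.2
  have ya := yA a aK
  have yf := yA f fK
  have ya' := yA a' a'K
  have za := zA a aK
  have zf := zA f fK
  have za' := zA a' a'K
  have xb := xB b bK
  have xg := xB g gK
  have xb' := xB b' b'K
  have zb := zB b bK
  have zg := zB g gK
  have zb' := zB b' b'K
  have ab := AB a aK b bK
  have ag := AB a aK g gK
  have ab' := AB a aK b' b'K
  have fb := AB f fK b bK
  have fg := AB f fK g gK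
  have fb' := AB f fK b' b'K
  have a'b := AB a' a'K b bK
  have a'g := AB a' a'K g gK
  have a'b' := AB a' a'K b' b'K
  have zq := qca_far hq.1
  have zq' := qca_far hq'.1
  -- different
  have nxf := (A.ne f fK).1
  have nxa' := (A.ne a' a'K).1
  have nyg := (B.ne g gK).1
  have nyb' := (B.ne b' b'K).1
  have nqa := (A.ne a aK).2.2
  have nqa' := (A.ne a' a'K).2.2
  have nq'b := (B.ne b bK).2.2
  have nq'b' := (B.ne b' b'K).2.2
  have nqb := qB b bK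
  have nqg := qB g gK
  have nqb' := qB b' b'K
  have nq'a := q'A a aK
  have nq'f := q'A f fK
  have nq'a' := q'A a' a'K
  have nqx : q ≠ x := fun h => zq.2 (h ▸ xz.symm)
  have nqy : q ≠ y := fun h => zq.2 (h ▸ yz.symm)
  have nq'x : q' ≠ x := fun h => zq'.2 (h ▸ xz.symm)
  have nq'y : q' ≠ y := fun h => zq'.2 (h ▸ yz.symm)
  have nqm : m ≠ q := fun h => zq.2 (h ▸ hT.zm)
  have nqm' : m' ≠ q := fun h => zq.2 (h ▸ hT.zm')
  have nq'm : m ≠ q' := fun h => zq'.2 (h ▸ hT.zm)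
  have nq'm' : m' ≠ q' := fun h => zq'.2 (h ▸ hT.zm')
  -- vertices not on the paths
  have M0 : x ∉ M := fun h => (hMM x h).1.2 xz.symm
  have M1 : y ∉ M := fun h => (hMM y h).1.2 yz.symm
  have M2 : z ∉ M := fun h => (hMM z h).1.1 rfl
  have M3 : m ∉ M := fun h => (hMM m h).1.2 hT.zm
  have M3' : m' ∉ M := fun h => (hMM m' h).1.2 hT.zm'
  have M4 : a ∉ M := fun h => (hMM a h).2.1 aK
  have M5 : f ∉ M := fun h => (hMM f h).2.1 fK
  have M6 : a' ∉ M := fun h => (hMM a' h).2.1 a'K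
  have M7 : b ∉ M := fun h => (hMM b h).2.2 bK
  have M8 : g ∉ M := fun h => (hMM g h).2.2 gK
  have M9 : b' ∉ M := fun h => (hMM b' h).2.2 b'K
  have NA : ∀ u ∈ PV a la a', x ≠ u ∧ y ≠ u ∧ z ≠ u ∧ m ≠ u ∧ b ≠ u ∧ g ≠ u ∧ b' ≠ u ∧ q ≠ u ∧
      q' ≠ u := fun u hu => ⟨(A.ne u hu).1, (yA u hu).1, (zA u hu).1, (A.ne u hu).2.1,
    (AB u hu b bK).1.symm, (AB u hu g gK).1.symm, (AB u hu b' b'K).1.symm, (A.ne u hu).2.2,
    q'A u hu⟩
  have NB : ∀ u ∈ PV b lb b', x ≠ u ∧ y ≠ u ∧ z ≠ u ∧ m' ≠ u ∧ a ≠ u ∧ f ≠ u ∧ a' ≠ u ∧ q ≠ u ∧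
      q' ≠ u := fun u hu => ⟨(xB u hu).1, (B.ne u hu).1, (zB u hu).1, (B.ne u hu).2.1,
    (AB a aK u hu).1, (AB f fK u hu).1, (AB a' a'K u hu).1, qB u hu, (B.ne u hu).2.2⟩
  have CA : ∀ u ∈ PV a la a', ¬ G.Adj y u ∧ ¬ G.Adj z u ∧ ¬ G.Adj b u ∧ ¬ G.Adj g u ∧
      ¬ G.Adj b' u := fun u hu => ⟨(yA u hu).2, (zA u hu).2, fun h => (AB u hu b bK).2 h.symm,
    fun h => (AB u hu g gK).2 h.symm, fun h => (AB u hu b' b'K).2 h.symm⟩
  have CB : ∀ u ∈ PV b lb b', ¬ G.Adj x u ∧ ¬ G.Adj z u ∧ ¬ G.Adj a u ∧ ¬ G.Adj f u ∧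
      ¬ G.Adj a' u := fun u hu => ⟨(xB u hu).2, (zB u hu).2, (AB a aK u hu).2, (AB f fK u hu).2,
    (AB a' a'K u hu).2⟩
  -- avoided vertices, l1
  have s10 : x ∉ l1 := fun h => (NA x (l1K x h)).1 rfl
  have s11 : y ∉ l1 := fun h => (NA y (l1K y h)).2.1 rfl
  have s12 : z ∉ l1 := fun h => (NA z (l1K z h)).2.2.1 rfl
  have s13 : m ∉ l1 := fun h => (NA m (l1K m h)).2.2.2.1 rfl
  have s14 : a ∉ l1 := A.n1.1
  have s15 : f ∉ l1 := A.n1.2.1
  have s16 : a' ∉ l1 := A.n1.2.2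
  have s17 : b ∉ l1 := fun h => (NA b (l1K b h)).2.2.2.2.1 rfl
  have s18 : g ∉ l1 := fun h => (NA g (l1K g h)).2.2.2.2.2.1 rfl
  have s19 : b' ∉ l1 := fun h => (NA b' (l1K b' h)).2.2.2.2.2.2.1 rfl
  have s1a : q ∉ l1 := fun h => (NA q (l1K q h)).2.2.2.2.2.2.2.1 rfl
  have s1b : q' ∉ l1 := fun h => (NA q' (l1K q' h)).2.2.2.2.2.2.2.2 rfl
  have s20 : x ∉ l2 := fun h => (NA x (l2K x h)).1 rfl
  have s21 : y ∉ l2 := fun h => (NA y (l2K y h)).2.1 rfl
  have s22 : z ∉ l2 := fun h => (NA z (l2K z h)).2.2.1 rfl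
  have s23 : m ∉ l2 := fun h => (NA m (l2K m h)).2.2.2.1 rfl
  have s24 : a ∉ l2 := A.n2.1
  have s25 : f ∉ l2 := A.n2.2.1
  have s26 : a' ∉ l2 := A.n2.2.2
  have s27 : b ∉ l2 := fun h => (NA b (l2K b h)).2.2.2.2.1 rfl
  have s28 : g ∉ l2 := fun h => (NA g (l2K g h)).2.2.2.2.2.1 rfl
  have s29 : b' ∉ l2 := fun h => (NA b' (l2K b' h)).2.2.2.2.2.2.1 rfl
  have s2a : q ∉ l2 := fun h => (NA q (l2K q h)).2.2.2.2.2.2.2.1 rfl
  have s2b : q' ∉ l2 := fun h => (NA q' (l2K q' h)).2.2.2.2.2.2.2.2 rfl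
  have s30 : x ∉ l3 := fun h => (NB x (l3K x h)).1 rfl
  have s31 : y ∉ l3 := fun h => (NB y (l3K y h)).2.1 rfl
  have s32 : z ∉ l3 := fun h => (NB z (l3K z h)).2.2.1 rfl
  have s33 : m' ∉ l3 := fun h => (NB m' (l3K m' h)).2.2.2.1 rfl
  have s34 : a ∉ l3 := fun h => (NB a (l3K a h)).2.2.2.2.1 rfl
  have s35 : f ∉ l3 := fun h => (NB f (l3K f h)).2.2.2.2.2.1 rfl
  have s36 : a' ∉ l3 := fun h => (NB a' (l3K a' h)).2.2.2.2.2.2.1 rfl
  have s37 : b ∉ l3 := B.n1.1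
  have s38 : g ∉ l3 := B.n1.2.1
  have s39 : b' ∉ l3 := B.n1.2.2
  have s3a : q ∉ l3 := fun h => (NB q (l3K q h)).2.2.2.2.2.2.2.1 rfl
  have s3b : q' ∉ l3 := fun h => (NB q' (l3K q' h)).2.2.2.2.2.2.2.2 rfl
  have s40 : x ∉ l4 := fun h => (NB x (l4K x h)).1 rfl
  have s41 : y ∉ l4 := fun h => (NB y (l4K y h)).2.1 rfl
  have s42 : z ∉ l4 := fun h => (NB z (l4K z h)).2.2.1 rfl
  have s43 : m' ∉ l4 := fun h => (NB m' (l4K m' h)).2.2.2.1 rfl
  have s44 : a ∉ l4 := fun h => (NB a (l4K a h)).2.2.2.2.1 rfl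
  have s45 : f ∉ l4 := fun h => (NB f (l4K f h)).2.2.2.2.2.1 rfl
  have s46 : a' ∉ l4 := fun h => (NB a' (l4K a' h)).2.2.2.2.2.2.1 rfl
  have s47 : b ∉ l4 := B.n2.1
  have s48 : g ∉ l4 := B.n2.2.1
  have s49 : b' ∉ l4 := B.n2.2.2
  have s4a : q ∉ l4 := fun h => (NB q (l4K q h)).2.2.2.2.2.2.2.1 rfl
  have s4b : q' ∉ l4 := fun h => (NB q' (l4K q' h)).2.2.2.2.2.2.2.2 rfl
  -- clean paths
  have cM2 : ∀ u ∈ M, ¬ G.Adj z u := fun u hu => (hMM u hu).1.2
  have cM4 : ∀ u ∈ M, ¬ G.Adj a u := fun u hu h => hMn u hu a (Or.inl aK) h.symm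
  have cM5 : ∀ u ∈ M, ¬ G.Adj f u := fun u hu h => hMn u hu f (Or.inl fK) h.symm
  have cM6 : ∀ u ∈ M, ¬ G.Adj a' u := fun u hu h => hMn u hu a' (Or.inl a'K) h.symm
  have cM7 : ∀ u ∈ M, ¬ G.Adj b u := fun u hu h => hMn u hu b (Or.inr bK) h.symm
  have cM8 : ∀ u ∈ M, ¬ G.Adj g u := fun u hu h => hMn u hu g (Or.inr gK) h.symm
  have cM9 : ∀ u ∈ M, ¬ G.Adj b' u := fun u hu h => hMn u hu b' (Or.inr b'K) h.symm
  have c10 := A.x1
  have c11 : ∀ u ∈ l1, ¬ G.Adj y u := fun u hu => (CA u (l1K u hu)).1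
  have c12 : ∀ u ∈ l1, ¬ G.Adj z u := fun u hu => (CA u (l1K u hu)).2.1
  have c13 := A.m1
  have c17 : ∀ u ∈ l1, ¬ G.Adj b u := fun u hu => (CA u (l1K u hu)).2.2.1
  have c18 : ∀ u ∈ l1, ¬ G.Adj g u := fun u hu => (CA u (l1K u hu)).2.2.2.1
  have c19 : ∀ u ∈ l1, ¬ G.Adj b' u := fun u hu => (CA u (l1K u hu)).2.2.2.2
  have c1a := A.q1
  have c20 := A.x2
  have c21 : ∀ u ∈ l2, ¬ G.Adj y u := fun u hu => (CA u (l2K u hu)).1
  have c22 : ∀ u ∈ l2, ¬ G.Adj z u := fun u hu => (CA u (l2K u hu)).2.1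
  have c23 := A.m2
  have c27 : ∀ u ∈ l2, ¬ G.Adj b u := fun u hu => (CA u (l2K u hu)).2.2.1
  have c28 : ∀ u ∈ l2, ¬ G.Adj g u := fun u hu => (CA u (l2K u hu)).2.2.2.1
  have c29 : ∀ u ∈ l2, ¬ G.Adj b' u := fun u hu => (CA u (l2K u hu)).2.2.2.2
  have c30 : ∀ u ∈ l3, ¬ G.Adj x u := fun u hu => (CB u (l3K u hu)).1
  have c31 := B.x1
  have c32 : ∀ u ∈ l3, ¬ G.Adj z u := fun u hu => (CB u (l3K u hu)).2.1
  have c33 := B.m1
  have c34 : ∀ u ∈ l3, ¬ G.Adj a u := fun u hu => (CB u (l3K u hu)).2.2.1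
  have c35 : ∀ u ∈ l3, ¬ G.Adj f u := fun u hu => (CB u (l3K u hu)).2.2.2.1
  have c36 : ∀ u ∈ l3, ¬ G.Adj a' u := fun u hu => (CB u (l3K u hu)).2.2.2.2
  have c3b := B.q1
  have c40 : ∀ u ∈ l4, ¬ G.Adj x u := fun u hu => (CB u (l4K u hu)).1
  have c41 := B.x2
  have c42 : ∀ u ∈ l4, ¬ G.Adj z u := fun u hu => (CB u (l4K u hu)).2.1
  have c43 := B.m2
  have c44 : ∀ u ∈ l4, ¬ G.Adj a u := fun u hu => (CB u (l4K u hu)).2.2.1
  have c45 : ∀ u ∈ l4, ¬ G.Adj f u := fun u hu => (CB u (l4K u hu)).2.2.2.1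
  have c46 : ∀ u ∈ l4, ¬ G.Adj a' u := fun u hu => (CB u (l4K u hu)).2.2.2.2
  have sMA : ∀ u ∈ M, ∀ v ∈ PV a la a', u ≠ v ∧ ¬ G.Adj u v := fun u hu v hv =>
    ⟨fun e => (hMM u hu).2.1 (e ▸ hv), hMn u hu v (Or.inl hv)⟩
  have sMB : ∀ u ∈ M, ∀ v ∈ PV b lb b', u ≠ v ∧ ¬ G.Adj u v := fun u hu v hv =>
    ⟨fun e => (hMM u hu).2.2 (e ▸ hv), hMn u hu v (Or.inr hv)⟩
  have sp : ([M, l1, l2, l3, l4] : List (List V)).Pairwise
      (fun A B => ∀ x ∈ A, ∀ y ∈ B, x ≠ y ∧ ¬ G.Adj x y) := by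
    simp only [List.pairwise_cons, List.mem_cons, List.not_mem_nil, or_false, forall_eq_or_imp,
      forall_eq, List.Pairwise.nil, and_true, false_imp_iff, implies_true]
    refine ⟨⟨?_, ?_, ?_, ?_⟩, ⟨?_, ?_, ?_⟩, ⟨?_, ?_⟩, ?_⟩
    · exact fun u hu v hv => sMA u hu v (l1K v hv)
    · exact fun u hu v hv => sMA u hu v (l2K v hv)
    · exact fun u hu v hv => sMB u hu v (l3K v hv)
    · exact fun u hu v hv => sMB u hu v (l4K v hv)
    · exact hO.l12
    · exact fun u hu v hv => AB u (l1K u hu) v (l3K v hv)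
    · exact fun u hu v hv => AB u (l1K u hu) v (l4K v hv)
    · exact fun u hu v hv => AB u (l2K u hu) v (l3K v hv)
    · exact fun u hu v hv => AB u (l2K u hu) v (l4K v hv)
    · exact hO'.l12
  have ak1 := A.k1
  have ak2 := A.k2
  have bk1 := B.k1
  have bk2 := B.k2
  have at1 := A.t1
  have at2 := A.t2
  have bt1 := B.t1
  have bt2 := B.t2
  have ar1 := A.r1
  have ar2 := A.r2
  have br1 := B.r1
  have br2 := B.r2
  have tM : q = q' → M = [] := qca_tri hM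
  have rM : q ≠ q' → IPt G (q :: (M ++ [q'])) := qca_pth hM
  rcases hT.mm with hm | ⟨hm, hAm, hBm⟩
  · subst hm
    refine hN preCia (by simp [preCs])
      (fun i => ([x, y, z, m, a, f, a', b, g, b', q, q'] : List V).getD i x)
      [M, l1, l2, l3, l4] ⟨?_, ?_, ?_, ?_, ?_, rfl, ?_, ?_, ?_, ?_, sp⟩
    · intro w hw; fin_cases hw <;> assumption
    · intro w hw; fin_cases hw <;> assumption
    · intro w hw; fin_cases hw <;> first | assumption
    · intro w hw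
      fin_cases hw
      · intro h; exact A.xf (h (4, 5) (by simp))
      · intro h; exact A.xa (h (4, 6) (by simp))
      · intro h; exact B.xf (h (7, 8) (by simp))
      · intro h; exact B.xa (h (7, 9) (by simp))
      · intro h; exact A.ma (h (4, 6) (by simp))
      · intro h; exact A.mf (h (5, 6) (by simp))
      · intro h; exact B.ma (h (7, 9) (by simp))
      · intro h; exact B.mf (h (8, 9) (by simp))
      · intro h; exact A.aq (h (4, 5) (by simp))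
      · intro h; exact B.aq (h (7, 8) (by simp))
      · intro h; exact cq (h (10, 11) (by simp)) b bK
      · intro h; exact cq (h (10, 11) (by simp)) g gK
      · intro h; exact cq (h (10, 11) (by simp)) b' b'K
      · intro h; exact cq' (h (10, 11) (by simp)) a aK
      · intro h; exact cq' (h (10, 11) (by simp)) f fK
      · intro h; exact cq' (h (10, 11) (by simp)) a' a'K
      · intro h; exact A.aa (h (4, 5) (by simp)) (h (5, 6) (by simp))
      · intro h; exact B.aa (h (7, 8) (by simp)) (h (8, 9) (by simp))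
    · intro w hw
      fin_cases hw
      · intro h; exact ak1 (h (4, 5) (by simp))
      · intro h; exact ak2 (h (5, 6) (by simp))
      · intro h; exact bk1 (h (7, 8) (by simp))
      · intro h; exact bk2 (h (8, 9) (by simp))
    · intro w hw; fin_cases hw <;> assumption
    · intro w hw; fin_cases hw <;> assumption
    · intro w hw i hi
      have hi' : i < 12 := hi
      fin_cases hw <;> interval_cases i <;> assumption
    · intro w hw i hi hU h1 h2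
      have hi' : i < 12 := hi
      fin_cases hw <;> interval_cases i <;>
        first
        | assumption
        | exact absurd rfl h1
        | exact absurd rfl h2
        | exact A.w1 h2
        | exact A.w2 h1
        | exact B.w1 h2
        | exact B.w2 h1
        | exact absurd (by simp) hU
  · have d3b := qca_far (hBm bK)
    have d3g := qca_far (hBm gK)
    have d3b' := qca_far (hBm b'K)
    have d4a := qca_far (hAm aK)
    have d4f := qca_far (hAm fK)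
    have d4a' := qca_far (hAm a'K)
    have u1 : m' ∉ l1 := fun h => (hAm (l1K m' h)).1 rfl
    have u2 : m' ∉ l2 := fun h => (hAm (l2K m' h)).1 rfl
    have u3 : m ∉ l3 := fun h => (hBm (l3K m h)).1 rfl
    have u4 : m ∉ l4 := fun h => (hBm (l4K m h)).1 rfl
    have v1 : ∀ u ∈ l1, ¬ G.Adj m' u := fun u hu => (hAm (l1K u hu)).2
    have v2 : ∀ u ∈ l2, ¬ G.Adj m' u := fun u hu => (hAm (l2K u hu)).2
    have v3 : ∀ u ∈ l3, ¬ G.Adj m u := fun u hu => (hBm (l3K u hu)).2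
    have v4 : ∀ u ∈ l4, ¬ G.Adj m u := fun u hu => (hBm (l4K u hu)).2
    refine hN preCib (by simp [preCs])
      (fun i => ([x, y, z, m, m', a, f, a', b, g, b', q, q'] : List V).getD i x)
      [M, l1, l2, l3, l4] ⟨?_, ?_, ?_, ?_, ?_, rfl, ?_, ?_, ?_, ?_, sp⟩
    · intro w hw; fin_cases hw <;> assumption
    · intro w hw; fin_cases hw <;> assumption
    · intro w hw; fin_cases hw <;> assumption
    · intro w hw
      fin_cases hw
      · intro h; exact A.xf (h (5, 6) (by simp))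
      · intro h; exact A.xa (h (5, 7) (by simp))
      · intro h; exact B.xf (h (8, 9) (by simp))
      · intro h; exact B.xa (h (8, 10) (by simp))
      · intro h; exact A.ma (h (5, 7) (by simp))
      · intro h; exact A.mf (h (6, 7) (by simp))
      · intro h; exact B.ma (h (8, 10) (by simp))
      · intro h; exact B.mf (h (9, 10) (by simp))
      · intro h; exact A.aq (h (5, 6) (by simp))
      · intro h; exact B.aq (h (8, 9) (by simp))
      · intro h; exact cq (h (11, 12) (by simp)) b bK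
      · intro h; exact cq (h (11, 12) (by simp)) g gK
      · intro h; exact cq (h (11, 12) (by simp)) b' b'K
      · intro h; exact cq' (h (11, 12) (by simp)) a aK
      · intro h; exact cq' (h (11, 12) (by simp)) f fK
      · intro h; exact cq' (h (11, 12) (by simp)) a' a'K
      · intro h; exact A.aa (h (5, 6) (by simp)) (h (6, 7) (by simp))
      · intro h; exact B.aa (h (8, 9) (by simp)) (h (9, 10) (by simp))
    · intro w hw
      fin_cases hw
      · intro h; exact ak1 (h (5, 6) (by simp))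
      · intro h; exact ak2 (h (6, 7) (by simp))
      · intro h; exact bk1 (h (8, 9) (by simp))
      · intro h; exact bk2 (h (9, 10) (by simp))
    · intro w hw; fin_cases hw <;> assumption
    · intro w hw; fin_cases hw <;> assumption
    · intro w hw i hi
      have hi' : i < 13 := hi
      fin_cases hw <;> interval_cases i <;> assumption
    · intro w hw i hi hU h1 h2
      have hi' : i < 13 := hi
      fin_cases hw <;> interval_cases i <;>
        first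
        | assumption
        | exact absurd rfl h1
        | exact absurd rfl h2
        | exact A.w1 h2
        | exact A.w2 h1
        | exact B.w1 h2
        | exact B.w2 h1
        | exact absurd (by simp) hU

end Pool.Agent.Helper64.FL
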